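import Mathlib

/-!
Large blocked point sets have no additive structure.  The additive energy of a `k`-blocked set `P`
is `o(|P|^3)`, for injective additive maps `S`, `T` only `o(|P|^2)` pairs `v`, `w` of points of `P`
have a point `S v + T w + z` in `P`, and the number of the ratios in which points of `P` divide
segments of `P` bounds the size of `P`.
-/

set_option autoImplicit false

universe u

namespace Pool.Agent.Results.MP_70b73c_co.FewRatios

open Finset Pointwise SimpleGraph SimpleGraph.TripartiteFromTriangles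

/-- `P` is blocked by the colouring `c`: two distinct points of `P` have the same colour exactly
when some point of `P` lies strictly between them. -/
def IsBlocked {E : Type*} [AddCommGroup E] [Module ℝ E] {k : ℕ} (P : Finset E) (c : E → Fin k) :
    Prop :=
  ∀ v ∈ P, ∀ w ∈ P, v ≠ w → (c v = c w ↔ ∃ x ∈ P, x ∈ openSegment ℝ v w)

/-- The ratios in which points of `P` divide the segments between two points of `P`. -/
def ratios {E : Type*} [AddCommGroup E] [Module ℝ E] (P : Finset E) : Set ℝ :=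
  {r | 0 < r ∧ r < 1 ∧ ∃ v ∈ P, ∃ w ∈ P, v ≠ w ∧ (1 - r) • v + r • w ∈ P}

section Roth

variable {E : Type u} [AddCommGroup E] [Module ℝ E] [DecidableEq E]

omit [DecidableEq E] in
theorem two_cancel {a b : E} (h : a + a = b + b) : a = b := by
  have h2 : (2 : ℝ) • a = (2 : ℝ) • b := by rw [two_smul, two_smul, h]
  exact smul_right_injective E (two_ne_zero : (2 : ℝ) ≠ 0) h2

/-- the explicit triangles -/
def tri (A : Finset E) : (A × A) ↪ (A × ↥(A - A) × ↥(2 • A - 1 • A)) where
  toFun q := (q.1, ⟨(q.2 : E) - q.1, sub_mem_sub q.2.2 q.1.2⟩,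
    ⟨(q.2 : E) + q.2 - q.1, by
      rw [two_nsmul, one_nsmul]
      exact sub_mem_sub (add_mem_add q.2.2 q.2.2) q.1.2⟩)
  inj' := by
    rintro ⟨x, a⟩ ⟨x', a'⟩ h
    simp only [Prod.mk.injEq, Subtype.mk.injEq] at h
    obtain ⟨rfl, h2, -⟩ := h
    have : (a : E) = a' := by simpa using h2
    rw [Prod.mk.injEq]
    exact ⟨rfl, Subtype.ext this⟩

/-- the set of the explicit triangles -/
def tris (A : Finset E) : Finset (A × ↥(A - A) × ↥(2 • A - 1 • A)) := univ.map (tri A)

omit [Module ℝ E] in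
theorem mem_tris (A : Finset E) (x : A) (y : ↥(A - A)) (z : ↥(2 • A - 1 • A)) :
    (x, y, z) ∈ tris A ↔ ∃ a ∈ A, (y : E) = a - x ∧ (z : E) = a + a - x := by
  unfold tris
  rw [mem_map]
  constructor
  · rintro ⟨⟨x', a⟩, -, h⟩
    have hx : x' = x := congrArg Prod.fst h
    have hy : (a : E) - x' = y := congrArg (fun q => (q.2.1 : E)) h
    have hz : (a : E) + a - x' = z := congrArg (fun q => (q.2.2 : E)) h
    subst hx
    exact ⟨a, a.2, hy.symm, hz.symm⟩
  · rintro ⟨a, ha, h2, h3⟩
    exact ⟨(x, ⟨a, ha⟩), mem_univ _, Prod.ext rfl (Prod.ext (Subtype.ext h2.symm)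
      (Subtype.ext h3.symm))⟩

omit [Module ℝ E] in
theorem card_tris (A : Finset E) : (tris A).card = A.card ^ 2 := by
  unfold tris
  rw [card_map, card_univ, Fintype.card_prod, Fintype.card_coe, sq]

theorem explicitDisjoint (A : Finset E) : ExplicitDisjoint (tris A) where
  inj₀ := by
    intro x y z x' h h'
    rw [mem_tris] at h h'
    obtain ⟨a, -, h1, h2⟩ := h
    obtain ⟨a', -, h3, h4⟩ := h'
    apply Subtype.ext
    have e1 : (z : E) - y = a := by rw [h1, h2]; abel
    have e2 : (z : E) - y = a' := by rw [h3, h4]; abel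
    have e3 : a = a' := e1.symm.trans e2
    subst e3
    have := h1.symm.trans h3
    simpa using this
  inj₁ := by
    intro x y z y' h h'
    rw [mem_tris] at h h'
    obtain ⟨a, -, h1, h2⟩ := h
    obtain ⟨a', -, h3, h4⟩ := h'
    have h5 : a + a - (x : E) = a' + a' - x := h2.symm.trans h4
    have h6 : a + a = a' + a' := by simpa using h5
    have h7 := two_cancel h6
    subst h7
    exact Subtype.ext (h1.trans h3.symm)
  inj₂ := by
    intro x y z z' h h'
    rw [mem_tris] at h h'
    obtain ⟨a, -, h1, h2⟩ := h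
    obtain ⟨a', -, h3, h4⟩ := h'
    have h5 : a - (x : E) = a' - x := h1.symm.trans h3
    have h6 : a = a' := by simpa using h5
    subst h6
    exact Subtype.ext (h2.trans h4.symm)

theorem noAccidental (A : Finset E) (hA : ThreeAPFree (A : Set E)) : NoAccidental (tris A) where
  eq_or_eq_or_eq := by
    intro x x' y y' z z' h1 h2 h3
    rw [mem_tris] at h1 h2 h3
    obtain ⟨a1, ha1, e1, e2⟩ := h1
    obtain ⟨a2, ha2, e3, e4⟩ := h2
    obtain ⟨a3, ha3, e5, e6⟩ := h3
    left
    have h4 : a1 + a3 = a2 + a2 := by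
      have h5 : (z : E) - y = a1 := by rw [e2, e1]; abel
      have h6 : (z : E) + x = a2 + a2 := by rw [e4]; abel
      have h7 : (y : E) + x = a3 := by rw [e5]; abel
      rw [← h5, ← h6, ← h7]
      abel
    have h8 : a1 = a2 := hA ha1 ha2 ha3 h4
    subst h8
    have h9 : a3 = a1 := by
      have : a1 + a3 = a1 + a1 := h4
      exact add_left_cancel this
    subst h9
    apply Subtype.ext
    have := e1.symm.trans e5
    have h10 : (x' : E) = x := by simpa using this
    exact h10.symm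

/-- A set without three terms in arithmetic progression and with small difference set is small. -/
theorem roth_small (K : ℝ) : ∃ N : ℕ, ∀ (E : Type u) [AddCommGroup E] [Module ℝ E] [DecidableEq E]
    (A : Finset E), ThreeAPFree (A : Set E) → ((A - A).card : ℝ) ≤ K * A.card → A.card ≤ N := by
  set ε : ℝ := ((1 + K + K ^ 3) ^ 2)⁻¹ with hε
  refine ⟨⌈(triangleRemovalBound ε)⁻¹⌉₊, ?_⟩
  intro E _ _ _ A hA hK
  rcases A.eq_empty_or_nonempty with h0 | hne
  · rw [h0]; simp
  have hApos : (0 : ℝ) < A.card := by exact_mod_cast hne.card_pos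
  have hK1 : 1 ≤ K := by
    have h1 : (A.card : ℝ) ≤ (A - A).card := by
      exact_mod_cast Finset.card_le_card_sub_right hne
    by_contra hc
    push Not at hc
    nlinarith
  have hpl : ((2 • A - 1 • A).card : ℝ) ≤ K ^ 3 * A.card := by
    have h1 := Finset.pluennecke_ruzsa_inequality_nsmul_sub_nsmul_sub hne A 2 1
    have h2 : ((2 • A - 1 • A).card : ℝ) ≤ (((A - A).card : ℝ) / A.card) ^ 3 * A.card := by
      have := (NNRat.cast_le (K := ℝ)).2 h1
      push_cast at this
      norm_num at this ⊢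
      exact this
    refine h2.trans ?_
    have h3 : ((A - A).card : ℝ) / A.card ≤ K := by
      rw [div_le_iff₀ hApos]
      exact hK
    gcongr
  have := explicitDisjoint A
  have := noAccidental A hA
  have hεpos : 0 < ε := by positivity
  have hfar : (graph (tris A)).FarFromTriangleFree ε := by
    refine farFromTriangleFree _ ?_
    rw [card_tris]
    simp only [Fintype.card_coe]
    push_cast
    have hle : (A.card : ℝ) + (A - A).card + (2 • A - 1 • A).card ≤ (1 + K + K ^ 3) * A.card := by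
      nlinarith
    have hsq : ((A.card : ℝ) + (A - A).card + (2 • A - 1 • A).card) ^ 2 ≤
        ((1 + K + K ^ 3) * A.card) ^ 2 := by
      gcongr
    calc ε * ((A.card : ℝ) + (A - A).card + (2 • A - 1 • A).card) ^ 2
        ≤ ε * ((1 + K + K ^ 3) * A.card) ^ 2 := by gcongr
      _ = (A.card : ℝ) ^ 2 := by
        rw [hε, mul_pow, ← mul_assoc, inv_mul_cancel₀ (by positivity), one_mul]
  have hcl := hfar.le_card_cliqueFinset
  rw [card_triangles, card_tris] at hcl
  simp only [Fintype.card_sum, Fintype.card_coe] at hcl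
  push_cast at hcl
  have hb : 0 < triangleRemovalBound ε := triangleRemovalBound_pos hεpos
  · have h1 : triangleRemovalBound ε * (A.card : ℝ) ^ 3 ≤ (A.card : ℝ) ^ 2 := by
      refine le_trans ?_ hcl
      gcongr
      have : (0 : ℝ) ≤ (A - A).card := by positivity
      have : (0 : ℝ) ≤ (2 • A - 1 • A).card := by positivity
      linarith
    have h2 : triangleRemovalBound ε * (A.card : ℝ) ≤ 1 := by
      by_contra hc
      push Not at hc
      have : (A.card : ℝ) ^ 2 < triangleRemovalBound ε * (A.card : ℝ) ^ 3 := by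
        have h3 : (0 : ℝ) < (A.card : ℝ) ^ 2 := by positivity
        nlinarith
      linarith
    have h3 : (A.card : ℝ) ≤ (triangleRemovalBound ε)⁻¹ := by
      rw [le_inv_comm₀ hApos hb]
      rw [← one_div, le_div_iff₀ hApos]
      exact h2
    exact_mod_cast h3.trans (Nat.le_ceil _)

end Roth


section BSG

variable {E F : Type*} [AddCommGroup E] [DecidableEq E] [AddCommGroup F] [DecidableEq F]

/-- the common partners of two points -/
def cp (A : Finset E) (Z : Finset F) (S T : E →+ F) (a a' : E) : Finset E :=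
  A.filter fun b => S a + T b ∈ Z ∧ S a' + T b ∈ Z

omit [DecidableEq E] in
theorem card_cp (A : Finset E) (Z : Finset F) (S T : E →+ F) (a a' : E) :
    ((cp A Z S T a a').card : ℝ) =
    ∑ b ∈ A, if S a + T b ∈ Z ∧ S a' + T b ∈ Z then (1 : ℝ) else 0 := by
  unfold cp
  rw [card_filter]
  push_cast
  rfl

theorem num_fin {D n α N δ K p a : ℝ} (hα : 0 < α) (hN : 0 < N) (hD : 0 ≤ D) (hp : 0 ≤ p)
    (hδ : δ = α ^ 2 / 16) (hnN : α * N / 2 ≤ n) (hT : D * (n / 2 * (δ * N) ^ 2) ≤ p ^ 4)
    (hP : p ≤ K * N) (ha : n / 2 ≤ a) : D ≤ 4096 * K ^ 4 / α ^ 6 * a := by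
  have hδ0 : 0 < δ := by rw [hδ]; positivity
  have hP4 : p ^ 4 ≤ (K * N) ^ 4 := by gcongr
  have hK : 0 ≤ K := by
    by_contra hc
    push Not at hc
    nlinarith
  have e1 : D * (α * N / 4 * (δ * N) ^ 2) ≤ (K * N) ^ 4 := by
    refine le_trans ?_ (hT.trans hP4)
    have : α * N / 4 ≤ n / 2 := by linarith
    gcongr
  have e2 : D * α ^ 5 ≤ 1024 * K ^ 4 * N := by
    have h3 : 0 < N ^ 3 := by positivity
    have h4 : D * α ^ 5 * N ^ 3 ≤ 1024 * K ^ 4 * N * N ^ 3 := by
      have h5 : D * (α * N / 4 * (δ * N) ^ 2) = D * α ^ 5 * N ^ 3 / 1024 := by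
        rw [hδ]; ring
      rw [h5] at e1
      have h6 : (K * N) ^ 4 = K ^ 4 * N * N ^ 3 := by ring
      rw [h6] at e1
      linarith
    exact le_of_mul_le_mul_right h4 h3
  have e3 : N * α ≤ 4 * a := by linarith
  have e4 : D * α ^ 6 ≤ 4096 * K ^ 4 * a := by
    calc D * α ^ 6 = D * α ^ 5 * α := by ring
      _ ≤ 1024 * K ^ 4 * N * α := by gcongr
      _ = 1024 * K ^ 4 * (N * α) := by ring
      _ ≤ 1024 * K ^ 4 * (4 * a) := by gcongr
      _ = 4096 * K ^ 4 * a := by ring
  rw [div_mul_eq_mul_div, le_div_iff₀ (by positivity)]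
  exact e4

theorem count_sigma (A : Finset E) (Z : Finset F) (A' : Finset E) {S T : E →+ F}
    (hS : Function.Injective S) (hT : Function.Injective T) (x y : E → E)
    (hxy : ∀ d ∈ A' - A', x d - y d = d) :
    ((A' - A').sigma fun d => A.sigma fun v => cp A Z S T (x d) v ×ˢ cp A Z S T (y d) v).card ≤
      Z.card ^ 4 := by
  have hP4 : (Z ×ˢ Z ×ˢ Z ×ˢ Z).card = Z.card ^ 4 := by
    rw [card_product, card_product, card_product]
    ring
  rw [← hP4]
  refine Finset.card_le_card_of_injOn (fun t => (S (x t.1) + T t.2.2.1,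
    S t.2.1 + T t.2.2.1, S (y t.1) + T t.2.2.2, S t.2.1 + T t.2.2.2)) ?_ ?_
  · rintro ⟨d, v, w, w'⟩ ht
    simp only [coe_sigma, Set.mem_sigma_iff, mem_coe, mem_product, cp, mem_filter] at ht
    obtain ⟨-, -, ⟨-, h3, h4⟩, -, h5, h6⟩ := ht
    simp only [mem_coe, mem_product]
    exact ⟨h3, h4, h5, h6⟩
  · rintro ⟨d, v, w, w'⟩ ht ⟨d₁, v₁, w₁, w₁'⟩ ht₁ heq
    simp only [coe_sigma, Set.mem_sigma_iff, mem_coe] at ht ht₁
    simp only [Prod.mk.injEq] at heq
    obtain ⟨e1, e2, e3, e4⟩ := heq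
    have key : S d = S d₁ := by
      have hd := hxy d ht.1
      have hd₁ := hxy d₁ ht₁.1
      rw [← hd, ← hd₁]
      have c1 : S (x d - y d) = (S (x d) + T w) - (S v + T w) -
          ((S (y d) + T w') - (S v + T w')) := by rw [map_sub]; abel
      have c2 : S (x d₁ - y d₁) = (S (x d₁) + T w₁) - (S v₁ + T w₁) -
          ((S (y d₁) + T w₁') - (S v₁ + T w₁')) := by rw [map_sub]; abel
      rw [c1, c2, e1, e2, e3, e4]
    have hdd : d = d₁ := hS key
    subst hdd
    have hw : w = w₁ := hT (add_left_cancel e1)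
    subst hw
    have hv : v = v₁ := hS (add_right_cancel e2)
    subst hv
    have hw' : w' = w₁' := hT (add_left_cancel e3)
    subst hw'
    rfl

theorem bsg (A : Finset E) (Z : Finset F) {S T : E →+ F} {α K : ℝ}
    (hS : Function.Injective S) (hT : Function.Injective T) (hα : 0 < α)
    (hne : A.Nonempty) (hG : α * (A.card : ℝ) ^ 2 ≤
      (((A ×ˢ A).filter fun q => S q.1 + T q.2 ∈ Z).card : ℝ))
    (hP : (Z.card : ℝ) ≤ K * A.card) :
    ∃ A' ⊆ A, α / 4 * A.card ≤ A'.card ∧
      ((A' - A').card : ℝ) ≤ 4096 * K ^ 4 / α ^ 6 * A'.card := by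
  classical
  have hN : (0 : ℝ) < A.card := by exact_mod_cast hne.card_pos
  set N : ℝ := (A.card : ℝ) with hNdef
  set δ : ℝ := α ^ 2 / 16 with hδ
  have hδpos : 0 < δ := by positivity
  let nb : E → Finset E := fun b => A.filter fun a => S a + T b ∈ Z
  let bad : E → E → Prop := fun a a' => ((cp A Z S T a a').card : ℝ) ≤ δ * N
  let bs : E → Finset (E × E) := fun b => (A ×ˢ A).filter fun q =>
    (S q.1 + T b ∈ Z ∧ S q.2 + T b ∈ Z) ∧ bad q.1 q.2
  -- the number of edges
  have hS1 : (((A ×ˢ A).filter fun q => S q.1 + T q.2 ∈ Z).card : ℝ) =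
      ∑ b ∈ A, ((nb b).card : ℝ) := by
    rw [card_filter, sum_product_right]
    push_cast
    refine sum_congr rfl fun b _ => ?_
    simp only [nb, card_filter]
    push_cast
    rfl
  -- Cauchy-Schwarz
  have hS2 : α ^ 2 * N ^ 3 ≤ ∑ b ∈ A, ((nb b).card : ℝ) ^ 2 := by
    have h2 : (∑ b ∈ A, ((nb b).card : ℝ)) ^ 2 ≤ N * ∑ b ∈ A, ((nb b).card : ℝ) ^ 2 :=
      sq_sum_le_card_mul_sum_sq
    have h3 : (α * N ^ 2) ^ 2 ≤ (∑ b ∈ A, ((nb b).card : ℝ)) ^ 2 := by
      rw [← hS1]
      gcongr
    have h4 : N * (α ^ 2 * N ^ 3) ≤ N * ∑ b ∈ A, ((nb b).card : ℝ) ^ 2 := by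
      calc N * (α ^ 2 * N ^ 3) = (α * N ^ 2) ^ 2 := by ring
        _ ≤ _ := h3.trans h2
    exact le_of_mul_le_mul_left h4 hN
  -- few bad pairs on average
  have hS3 : ∑ b ∈ A, ((bs b).card : ℝ) ≤ δ * N ^ 3 := by
    have h2 : ∑ b ∈ A, ((bs b).card : ℝ) =
        ∑ q ∈ A ×ˢ A, if bad q.1 q.2 then ((cp A Z S T q.1 q.2).card : ℝ) else 0 := by
      simp only [bs, card_filter]
      push_cast
      rw [sum_comm]
      refine sum_congr rfl fun q _ => ?_
      by_cases hq : bad q.1 q.2
      · rw [if_pos hq]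
        refine Eq.trans ?_ (card_cp A Z S T q.1 q.2).symm
        refine sum_congr rfl fun b _ => ?_
        simp only [hq, and_true]
      · rw [if_neg hq]
        exact sum_eq_zero fun b _ => if_neg fun h => hq h.2
    rw [h2]
    have h3 : ∀ q ∈ A ×ˢ A, (if bad q.1 q.2 then ((cp A Z S T q.1 q.2).card : ℝ) else 0) ≤
        δ * N := by
      intro q _
      split_ifs with h
      · exact h
      · positivity
    calc _ ≤ ∑ _q ∈ A ×ˢ A, δ * N := sum_le_sum h3
      _ = δ * N ^ 3 := by
        rw [sum_const, card_product, nsmul_eq_mul]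
        push_cast
        ring
  obtain ⟨b, hb, hb2⟩ : ∃ b ∈ A, α ^ 2 * N ^ 2 / 2 ≤
      ((nb b).card : ℝ) ^ 2 - 8 * ((bs b).card : ℝ) := by
    refine exists_le_of_sum_le hne ?_
    rw [sum_sub_distrib, ← mul_sum, sum_const, nsmul_eq_mul]
    have e1 : N * (α ^ 2 * N ^ 2 / 2) = α ^ 2 * N ^ 3 - 8 * (δ * N ^ 3) := by
      rw [hδ]; ring
    rw [← hNdef, e1]
    linarith
  set B := nb b with hB
  set n : ℝ := (B.card : ℝ) with hn
  have hBA : B ⊆ A := filter_subset _ _
  have hbs : 8 * ((bs b).card : ℝ) ≤ n ^ 2 := by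
    have : (0 : ℝ) ≤ α ^ 2 * N ^ 2 / 2 := by positivity
    linarith
  have hnN : α * N / 2 ≤ n := by
    have h2 : (0 : ℝ) ≤ (bs b).card := by positivity
    have h3 : (α * N / 2) ^ 2 ≤ n ^ 2 := by
      have : (α * N / 2) ^ 2 = α ^ 2 * N ^ 2 / 4 := by ring
      rw [this]
      have : (0 : ℝ) ≤ α ^ 2 * N ^ 2 := by positivity
      linarith
    exact le_of_sq_le_sq h3 (by positivity)
  have hnpos : 0 < n := lt_of_lt_of_le (by positivity) hnN
  let bn : E → Finset E := fun a => B.filter fun a' => bad a a'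
  have hbn : ∑ a ∈ B, ((bn a).card : ℝ) ≤ n ^ 2 / 8 := by
    have h2 : ∑ a ∈ B, ((bn a).card : ℝ) = ((bs b).card : ℝ) := by
      have h3 : bs b = (B ×ˢ B).filter fun q => bad q.1 q.2 := by
        ext q
        simp only [bs, hB, nb, mem_filter, mem_product]
        tauto
      rw [h3, card_filter, sum_product]
      push_cast
      refine sum_congr rfl fun a _ => ?_
      simp only [bn, card_filter]
      push_cast
      rfl
    rw [h2]
    linarith
  let A' : Finset E := B.filter fun a => ((bn a).card : ℝ) ≤ n / 4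
  have hA'B : A' ⊆ B := filter_subset _ _
  have hA'n : n / 2 ≤ (A'.card : ℝ) := by
    have h2 : (A'.card : ℝ) + ((B.filter fun a => ¬((bn a).card : ℝ) ≤ n / 4).card : ℝ) = n := by
      rw [hn]
      exact_mod_cast card_filter_add_card_filter_not (fun a => ((bn a).card : ℝ) ≤ n / 4)
    have h3 : ((B.filter fun a => ¬((bn a).card : ℝ) ≤ n / 4).card : ℝ) * (n / 4) ≤ n ^ 2 / 8 := by
      calc ((B.filter fun a => ¬((bn a).card : ℝ) ≤ n / 4).card : ℝ) * (n / 4)
          = ∑ _a ∈ B.filter fun a => ¬((bn a).card : ℝ) ≤ n / 4, n / 4 := by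
            rw [sum_const, nsmul_eq_mul]
        _ ≤ ∑ a ∈ B.filter fun a => ¬((bn a).card : ℝ) ≤ n / 4, ((bn a).card : ℝ) :=
            sum_le_sum fun a ha => by
              have := (mem_filter.1 ha).2
              push Not at this
              exact this.le
        _ ≤ ∑ a ∈ B, ((bn a).card : ℝ) :=
            sum_le_sum_of_subset_of_nonneg (filter_subset _ _) fun a _ _ => by positivity
        _ ≤ n ^ 2 / 8 := hbn
    have h4 : ((B.filter fun a => ¬((bn a).card : ℝ) ≤ n / 4).card : ℝ) ≤ n / 2 := by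
      by_contra hc
      rw [not_le] at hc
      nlinarith
    linarith
  -- the count of the quadruples
  have hcount : ∀ a ∈ A', ∀ a' ∈ A', n / 2 * (δ * N) ^ 2 ≤
      ((A.sigma fun v => cp A Z S T a v ×ˢ cp A Z S T a' v).card : ℝ) := by
    intro a ha a' ha'
    have ha2 : ((bn a).card : ℝ) ≤ n / 4 := (mem_filter.1 ha).2
    have ha2' : ((bn a').card : ℝ) ≤ n / 4 := (mem_filter.1 ha').2
    let Gd : Finset E := B.filter fun v => ¬bad a v ∧ ¬bad a' v
    have hGd : n / 2 ≤ (Gd.card : ℝ) := by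
      have h2 : B ⊆ Gd ∪ (bn a ∪ bn a') := by
        intro v hv
        simp only [Gd, bn, mem_union, mem_filter]
        tauto
      have h3 : (B.card : ℝ) ≤ Gd.card + ((bn a).card + (bn a').card) := by
        exact_mod_cast (card_le_card h2).trans ((card_union_le _ _).trans
          (Nat.add_le_add_left (card_union_le _ _) _))
      linarith
    rw [card_sigma]
    push_cast
    simp only [card_product, Nat.cast_mul]
    calc n / 2 * (δ * N) ^ 2 ≤ (Gd.card : ℝ) * (δ * N) ^ 2 := by gcongr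
      _ = ∑ _v ∈ Gd, (δ * N) ^ 2 := by rw [sum_const, nsmul_eq_mul]
      _ ≤ ∑ v ∈ Gd, ((cp A Z S T a v).card : ℝ) * ((cp A Z S T a' v).card : ℝ) := by
          refine sum_le_sum fun v hv => ?_
          obtain ⟨-, h2, h3⟩ := mem_filter.1 hv
          simp only [bad] at h2 h3
          push Not at h2 h3
          rw [sq]
          exact mul_le_mul h2.le h3.le (by positivity) (by positivity)
      _ ≤ ∑ v ∈ A, ((cp A Z S T a v).card : ℝ) * ((cp A Z S T a' v).card : ℝ) :=
          sum_le_sum_of_subset_of_nonneg ((filter_subset _ _).trans hBA)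
            fun v _ _ => by positivity
  have hrep : ∀ d : E, ∃ x y : E, d ∈ A' - A' → x ∈ A' ∧ y ∈ A' ∧ x - y = d := by
    intro d
    by_cases hd : d ∈ A' - A'
    · obtain ⟨x, hx, y, hy, h⟩ := mem_sub.1 hd
      exact ⟨x, y, fun _ => ⟨hx, hy, h⟩⟩
    · exact ⟨0, 0, fun h => absurd h hd⟩
  choose x y hxy using hrep
  have hTc := count_sigma A Z A' hS hT x y fun d hd => (hxy d hd).2.2
  have hT2 : ((A' - A').card : ℝ) * (n / 2 * (δ * N) ^ 2) ≤ (Z.card : ℝ) ^ 4 := by
    calc ((A' - A').card : ℝ) * (n / 2 * (δ * N) ^ 2)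
        = ∑ _d ∈ A' - A', n / 2 * (δ * N) ^ 2 := by rw [sum_const, nsmul_eq_mul]
      _ ≤ ∑ d ∈ A' - A',
          ((A.sigma fun v => cp A Z S T (x d) v ×ˢ cp A Z S T (y d) v).card : ℝ) :=
          sum_le_sum fun d hd => hcount _ (hxy d hd).1 _ (hxy d hd).2.1
      _ = (((A' - A').sigma fun d =>
          A.sigma fun v => cp A Z S T (x d) v ×ˢ cp A Z S T (y d) v).card : ℝ) := by
          rw [card_sigma]
          push_cast
          rfl
      _ ≤ (Z.card : ℝ) ^ 4 := by exact_mod_cast hTc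
  refine ⟨A', hA'B.trans hBA, ?_, ?_⟩
  · linarith
  · exact num_fin hα hN (by positivity) (by positivity) hδ hnN hT2 hP hA'n

end BSG



section Basic

variable {E : Type*} [AddCommGroup E] [Module ℝ E] {k : ℕ}

/-- a point strictly between two points, written with a parameter -/
lemma mem_open_param {v w x : E} :
    x ∈ openSegment ℝ v w ↔ ∃ t : ℝ, 0 < t ∧ t < 1 ∧ x = v + t • (w - v) := by
  constructor
  · rintro ⟨a, b, ha, hb, hab, rfl⟩
    refine ⟨b, hb, by linarith, ?_⟩
    have : a = 1 - b := by linarith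
    subst this
    module
  · rintro ⟨t, h0, h1, rfl⟩
    refine ⟨1 - t, t, by linarith, h0, by ring, ?_⟩
    module

/-- A blocker of a monochromatic pair has another colour. -/
lemma blocker_color {P : Finset E} {c : E → Fin k} (hB : IsBlocked P c)
    {v w y : E} (hv : v ∈ P) (hw : w ∈ P) (hne : v ≠ w) (hc : c v = c w) (hy : y ∈ P)
    (hyo : y ∈ openSegment ℝ v w) : c y ≠ c v := by
  have hd : w - v ≠ 0 := sub_ne_zero.mpr (Ne.symm hne)
  have hinj : Function.Injective (fun t : ℝ => v + t • (w - v)) := by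
    intro s t hst
    have h1 : s • (w - v) = t • (w - v) := by simpa using hst
    have h2 : (s - t) • (w - v) = 0 := by rw [sub_smul, h1, sub_self]
    rcases smul_eq_zero.mp h2 with h3 | h3
    · linarith
    · exact absurd h3 hd
  let T : Set ℝ := {t : ℝ | 0 < t ∧ t < 1 ∧ v + t • (w - v) ∈ P}
  have hTfin : T.Finite := by
    have : ((fun t : ℝ => v + t • (w - v)) ⁻¹' (P : Set E)).Finite :=
      P.finite_toSet.preimage hinj.injOn
    exact this.subset (fun t ht => ht.2.2)
  obtain ⟨u, hu0, hu1, hyu⟩ := mem_open_param.mp hyo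
  have huT : u ∈ T := ⟨hu0, hu1, hyu ▸ hy⟩
  obtain ⟨t, htT, hmin⟩ := Set.exists_min_image T id hTfin ⟨_, huT⟩
  simp only [id] at hmin
  obtain ⟨ht0, ht1, htP⟩ := htT
  set x : E := v + t • (w - v) with hx
  have hvx : v ≠ x := by
    intro hh
    have h2 : t • (w - v) = 0 := by
      have : v + 0 = v + t • (w - v) := by rw [add_zero]; exact hh
      exact (add_left_cancel this).symm
    rcases smul_eq_zero.mp h2 with h3 | h3
    · linarith
    · exact hd h3
  -- `v` and `x` see each other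
  have hcx : c v ≠ c x := by
    intro hh
    obtain ⟨z, hzP, hz⟩ := (hB v hv x htP hvx).mp hh
    obtain ⟨s, hs0, hs1, rfl⟩ := mem_open_param.mp hz
    have hmem : s * t ∈ T := by
      refine ⟨mul_pos hs0 ht0, by nlinarith, ?_⟩
      have : v + (s * t) • (w - v) = v + s • (x - v) := by
        rw [hx]; module
      rw [this]; exact hzP
    have := hmin _ hmem
    nlinarith
  -- compare `t` and `u`
  rcases lt_or_eq_of_le (hmin _ huT) with hlt | heq
  · exfalso
    have hxw : x ≠ w := by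
      intro hh
      have h2 : (t - 1) • (w - v) = 0 := by
        have : (t - 1) • (w - v) = x - w := by rw [hx]; module
        rw [this, hh, sub_self]
      rcases smul_eq_zero.mp h2 with h3 | h3
      · linarith
      · exact hd h3
    have hblk : c x = c w := by
      refine (hB x htP w hw hxw).mpr ⟨y, hy, ?_⟩
      refine mem_open_param.mpr ⟨(u - t) / (1 - t), ?_, ?_, ?_⟩
      · apply div_pos <;> linarith
      · rw [div_lt_one (by linarith)]; linarith
      · rw [hyu, hx]
        have h1t : (1 - t) ≠ 0 := by linarith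
        have hwx : w - (v + t • (w - v)) = (1 - t) • (w - v) := by module
        rw [hwx, smul_smul, div_mul_cancel₀ _ h1t]
        module
    exact hcx (hc.trans hblk.symm)
  · have : y = x := by rw [hyu, hx, heq]
    rw [this]
    exact fun hh => hcx hh.symm

lemma combo_mem_openSegment {r : ℝ} (h0 : 0 < r) (h1 : r < 1) (v w : E) :
    (1 - r) • v + r • w ∈ openSegment ℝ v w :=
  ⟨1 - r, r, by linarith, h0, by ring, rfl⟩

end Basic

section Final

theorem class_threeAPFree {E : Type*} [AddCommGroup E] [Module ℝ E] {k : ℕ} {P : Finset E}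
    {c : E → Fin k} (hB : IsBlocked P c) {A : Finset E}
    (hAP : A ⊆ P) {i : Fin k} (hi : ∀ a ∈ A, c a = i) : ThreeAPFree (A : Set E) := by
  intro a ha b hb d hd h
  by_contra hab
  have had : a ≠ d := by
    rintro rfl
    exact hab (two_cancel h)
  have hbo : b ∈ openSegment ℝ a d := by
    refine ⟨1 / 2, 1 / 2, by norm_num, by norm_num, by norm_num, ?_⟩
    rw [← smul_add, h, ← two_smul ℝ b, smul_smul]
    norm_num
  exact blocker_color hB (hAP ha) (hAP hd) had ((hi a ha).trans (hi d hd).symm) (hAP hb) hbo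
    ((hi b hb).trans (hi a ha).symm)

/-- Subsets with small difference set of blocked sets have bounded size. -/
theorem small_doubling (k : ℕ) (C : ℝ) : ∃ N : ℕ, ∀ (E : Type u) [AddCommGroup E] [Module ℝ E]
    [DecidableEq E] (P : Finset E) (c : E → Fin k), IsBlocked P c → ∀ A ⊆ P,
    ((A - A).card : ℝ) ≤ C * A.card → A.card ≤ N := by
  obtain ⟨N1, hN1⟩ := roth_small.{u} (C * k)
  refine ⟨k * N1, ?_⟩
  intro E _ _ _ P c hB A hAP hA
  rcases A.eq_empty_or_nonempty with h0 | hne
  · rw [h0]; simp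
  have hApos : (0 : ℝ) < A.card := by exact_mod_cast hne.card_pos
  have hC : 0 ≤ C := by
    by_contra hc
    rw [not_le] at hc
    have : (0 : ℝ) ≤ (A - A).card := by positivity
    nlinarith
  obtain ⟨i, -, hi⟩ : ∃ i ∈ (univ : Finset (Fin k)),
      A.card ≤ k * (A.filter fun v => c v = i).card := by
    by_contra hcon
    push Not at hcon
    have h2 : A.card = ∑ i : Fin k, (A.filter fun v => c v = i).card :=
      card_eq_sum_card_fiberwise (f := c) (t := univ) (fun q _ => by simp)
    have hk : 0 < k := by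
      obtain ⟨v, -⟩ := hne
      exact (Nat.zero_le _).trans_lt (c v).2
    have hu : (univ : Finset (Fin k)).Nonempty := ⟨⟨0, hk⟩, mem_univ _⟩
    have h3 := sum_lt_sum_of_nonempty hu hcon
    rw [← mul_sum, ← h2, sum_const, card_univ, Fintype.card_fin, smul_eq_mul] at h3
    exact lt_irrefl _ h3
  have hsub : (A.filter fun v => c v = i) ⊆ A := filter_subset _ _
  have h4 : (((A.filter fun v => c v = i) - (A.filter fun v => c v = i)).card : ℝ) ≤
      C * k * (A.filter fun v => c v = i).card := by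
    calc (((A.filter fun v => c v = i) - (A.filter fun v => c v = i)).card : ℝ)
        ≤ (A - A).card := by exact_mod_cast card_le_card (sub_subset_sub hsub hsub)
      _ ≤ C * A.card := hA
      _ ≤ C * (k * (A.filter fun v => c v = i).card) := by
        gcongr
        exact_mod_cast hi
      _ = C * k * (A.filter fun v => c v = i).card := by ring
  have h5 := hN1 E _ (class_threeAPFree hB (hsub.trans hAP) (fun a ha => (mem_filter.1 ha).2)) h4
  exact hi.trans (Nat.mul_le_mul_left k h5)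

/-- the common core: a dense bipartite graph with few values -/
theorem dense_graph (k : ℕ) (α K : ℝ) (hα : 0 < α) : ∃ N : ℕ, ∀ (E : Type u) [AddCommGroup E]
    [Module ℝ E] [DecidableEq E] (P : Finset E) (c : E → Fin k), IsBlocked P c → N ≤ P.card →
    ∀ S T : E →+ E, Function.Injective S → Function.Injective T → ∀ Z : Finset E,
    (Z.card : ℝ) ≤ K * P.card →
    (((P ×ˢ P).filter fun q => S q.1 + T q.2 ∈ Z).card : ℝ) < α * (P.card : ℝ) ^ 2 := by
  obtain ⟨N1, hN1⟩ := small_doubling.{u} k (4096 * K ^ 4 / α ^ 6)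
  refine ⟨⌈4 / α * N1⌉₊ + 1, ?_⟩
  intro E _ _ _ P c hB hN S T hS hT Z hZ
  by_contra hc
  rw [not_lt] at hc
  have hPne : P.Nonempty := by
    rw [← card_pos]
    omega
  obtain ⟨A', hA'A, h2, h3⟩ := bsg P Z hS hT hα hPne hc hZ
  have h4 := hN1 E P c hB A' hA'A h3
  have h5 : (A'.card : ℝ) ≤ N1 := by exact_mod_cast h4
  have h6 : (P.card : ℝ) ≤ 4 / α * N1 := by
    calc (P.card : ℝ) = 4 / α * (α / 4 * P.card) := by field_simp
      _ ≤ 4 / α * N1 := by
        gcongr
        exact h2.trans h5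
  have h8 : P.card ≤ ⌈4 / α * N1⌉₊ := by exact_mod_cast h6.trans (Nat.le_ceil _)
  omega

theorem few_pairs (k : ℕ) (ε : ℝ) (hε : 0 < ε) : ∃ N : ℕ, ∀ (E : Type u) [AddCommGroup E]
    [Module ℝ E] [DecidableEq E] (P : Finset E) (c : E → Fin k), IsBlocked P c → N ≤ P.card →
    ∀ S T : E →+ E, Function.Injective S → Function.Injective T → ∀ z : E,
    (((P ×ˢ P).filter fun q => S q.1 + T q.2 + z ∈ P).card : ℝ) ≤ ε * (P.card : ℝ) ^ 2 := by
  obtain ⟨N, hN⟩ := dense_graph.{u} k ε 1 hε
  refine ⟨N, ?_⟩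
  intro E _ _ _ P c hB hNP S T hS hT z
  have h1 := hN E P c hB hNP S T hS hT (P.image fun x => x - z) (by
    rw [one_mul]
    exact_mod_cast card_image_le)
  refine le_trans ?_ h1.le
  have h2 : ((P ×ˢ P).filter fun q => S q.1 + T q.2 + z ∈ P) ⊆
      (P ×ˢ P).filter fun q => S q.1 + T q.2 ∈ P.image fun x => x - z := by
    intro q hq
    rw [mem_filter] at hq ⊢
    exact ⟨hq.1, mem_image.2 ⟨_, hq.2, by abel⟩⟩
  exact_mod_cast card_le_card h2

theorem small_energy (k : ℕ) (ε : ℝ) (hε : 0 < ε) : ∃ N : ℕ, ∀ (E : Type u) [AddCommGroup E]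
    [Module ℝ E] [DecidableEq E] (P : Finset E) (c : E → Fin k), IsBlocked P c → N ≤ P.card →
    (P.addEnergy P : ℝ) ≤ ε * (P.card : ℝ) ^ 3 := by
  obtain ⟨N, hN⟩ := dense_graph.{u} k (ε / 2) (2 / ε) (by positivity)
  refine ⟨N + 1, ?_⟩
  intro E _ _ _ P c hB hNP
  by_contra hc
  rw [not_le] at hc
  have hn : (0 : ℝ) < P.card := by
    have : 0 < P.card := by omega
    exact_mod_cast this
  set n : ℝ := (P.card : ℝ) with hndef
  let ρ : E → ℕ := fun x => ((P ×ˢ P).filter fun q => q.1 + q.2 = x).card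
  have hE : (P.addEnergy P : ℝ) = ∑ x ∈ P + P, (ρ x : ℝ) ^ 2 := by
    rw [addEnergy_eq_sum_sq']
    push_cast
    rfl
  have hsum : ∑ x ∈ P + P, (ρ x : ℝ) = n ^ 2 := by
    have h1 : (P ×ˢ P).card = ∑ x ∈ P + P, ρ x :=
      card_eq_sum_card_fiberwise (f := fun q : E × E => q.1 + q.2) (t := P + P)
        (fun q hq => by
          rw [mem_coe, mem_product] at hq
          exact add_mem_add hq.1 hq.2)
    rw [card_product] at h1
    rw [sq, hndef]
    exact_mod_cast h1.symm
  have hρ : ∀ x, (ρ x : ℝ) ≤ n := by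
    intro x
    have h1 : ρ x ≤ P.card := by
      refine card_le_card_of_injOn Prod.fst (fun q hq => ?_) ?_
      · rw [mem_coe, mem_filter, mem_product] at hq
        exact hq.1.1
      · intro q hq q' hq' h
        rw [mem_coe, mem_filter] at hq hq'
        refine Prod.ext h ?_
        have h2 := hq.2.trans hq'.2.symm
        rw [h] at h2
        exact add_left_cancel h2
    rw [hndef]
    exact_mod_cast h1
  let Z : Finset E := (P + P).filter fun x => ε / 2 * n ≤ ρ x
  have hZ : (Z.card : ℝ) ≤ 2 / ε * n := by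
    have h1 : (Z.card : ℝ) * (ε / 2 * n) ≤ n ^ 2 := by
      calc (Z.card : ℝ) * (ε / 2 * n) = ∑ _x ∈ Z, ε / 2 * n := by rw [sum_const, nsmul_eq_mul]
        _ ≤ ∑ x ∈ Z, (ρ x : ℝ) := sum_le_sum fun x hx => (mem_filter.1 hx).2
        _ ≤ ∑ x ∈ P + P, (ρ x : ℝ) :=
          sum_le_sum_of_subset_of_nonneg (filter_subset _ _) fun x _ _ => by positivity
        _ = n ^ 2 := hsum
    have h2 : (Z.card : ℝ) * (ε / 2 * n) ≤ 2 / ε * n * (ε / 2 * n) := by
      refine h1.trans (le_of_eq ?_)
      field_simp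
    exact le_of_mul_le_mul_right h2 (by positivity)
  have hedge : ε / 2 * n ^ 2 ≤
      (((P ×ˢ P).filter fun q => (AddMonoidHom.id E) q.1 + (AddMonoidHom.id E) q.2 ∈ Z).card :
        ℝ) := by
    have h1 : (((P ×ˢ P).filter fun q => (AddMonoidHom.id E) q.1 + (AddMonoidHom.id E) q.2 ∈
        Z).card : ℝ) = ∑ x ∈ Z, (ρ x : ℝ) := by
      have h2 : ((P ×ˢ P).filter fun q => (AddMonoidHom.id E) q.1 + (AddMonoidHom.id E) q.2 ∈
          Z).card = ∑ x ∈ Z, (((P ×ˢ P).filter fun q => (AddMonoidHom.id E) q.1 +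
            (AddMonoidHom.id E) q.2 ∈ Z).filter fun q => q.1 + q.2 = x).card :=
        card_eq_sum_card_fiberwise (f := fun q : E × E => q.1 + q.2) (t := Z)
          (fun q hq => by
            rw [mem_coe, mem_filter] at hq
            exact hq.2)
      rw [h2]
      push_cast
      refine sum_congr rfl fun x hx => ?_
      have h3 : (((P ×ˢ P).filter fun q => (AddMonoidHom.id E) q.1 +
            (AddMonoidHom.id E) q.2 ∈ Z).filter fun q => q.1 + q.2 = x) =
          (P ×ˢ P).filter fun q => q.1 + q.2 = x := by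
        ext q
        simp only [mem_filter, AddMonoidHom.id_apply]
        constructor
        · rintro ⟨⟨a, -⟩, b⟩
          exact ⟨a, b⟩
        · rintro ⟨a, b⟩
          exact ⟨⟨a, b ▸ hx⟩, b⟩
      rw [h3]
    rw [h1]
    have h4 : ∑ x ∈ P + P, (ρ x : ℝ) ^ 2 ≤ n * ∑ x ∈ Z, (ρ x : ℝ) + ε / 2 * n * n ^ 2 := by
      rw [← hsum, mul_sum, mul_sum, sum_filter, ← sum_add_distrib]
      refine sum_le_sum fun x _ => ?_
      have h5 := hρ x
      have h6 : (0 : ℝ) ≤ ρ x := by positivity
      by_cases hx : ε / 2 * n ≤ ρ x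
      · rw [if_pos hx, sq]
        have : 0 ≤ ε / 2 * n * (ρ x : ℝ) := by positivity
        nlinarith
      · rw [if_neg hx, sq, zero_add]
        rw [not_le] at hx
        nlinarith
    rw [hE] at hc
    have h7 : n * (ε / 2 * n ^ 2) ≤ n * ∑ x ∈ Z, (ρ x : ℝ) := by nlinarith
    exact le_of_mul_le_mul_left h7 hn
  have h9 := hN E P c hB (by omega) (AddMonoidHom.id E) (AddMonoidHom.id E)
    Function.injective_id Function.injective_id Z hZ
  linarith

theorem many_mono {E : Type*} [DecidableEq E] {k : ℕ} {P : Finset E} {c : E → Fin k}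
    (hk : 0 < k) : (P.card : ℝ) ^ 2 / k - P.card ≤
      (((P ×ˢ P).filter fun q => q.1 ≠ q.2 ∧ c q.1 = c q.2).card : ℝ) := by
  have hk' : (0 : ℝ) < k := by exact_mod_cast hk
  have h1 : (P.card : ℝ) = ∑ i : Fin k, ((P.filter fun v => c v = i).card : ℝ) := by
    exact_mod_cast card_eq_sum_card_fiberwise (f := c) (t := univ) (fun q _ => by simp)
  have h2 : (P.card : ℝ) ^ 2 ≤ k * ∑ i : Fin k, ((P.filter fun v => c v = i).card : ℝ) ^ 2 := by
    rw [h1]
    have := sq_sum_le_card_mul_sum_sq (s := (univ : Finset (Fin k)))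
      (f := fun i => ((P.filter fun v => c v = i).card : ℝ))
    rwa [card_univ, Fintype.card_fin] at this
  have h3 : ∑ i : Fin k, ((P.filter fun v => c v = i).card : ℝ) ^ 2 =
      (((P ×ˢ P).filter fun q => c q.1 = c q.2).card : ℝ) := by
    have h4 : ((P ×ˢ P).filter fun q => c q.1 = c q.2).card =
        ∑ i : Fin k, (((P ×ˢ P).filter fun q => c q.1 = c q.2).filter fun q => c q.1 = i).card :=
      card_eq_sum_card_fiberwise (f := fun q : E × E => c q.1) (t := univ) (fun q _ => by simp)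
    rw [h4]
    push_cast
    refine sum_congr rfl fun i _ => ?_
    have h5 : (((P ×ˢ P).filter fun q => c q.1 = c q.2).filter fun q => c q.1 = i) =
        (P.filter fun v => c v = i) ×ˢ (P.filter fun v => c v = i) := by
      ext q
      simp only [mem_filter, mem_product]
      constructor
      · rintro ⟨⟨⟨a, b⟩, h⟩, h'⟩
        exact ⟨⟨a, h'⟩, b, h ▸ h'⟩
      · rintro ⟨⟨a, h⟩, b, h'⟩
        exact ⟨⟨⟨a, b⟩, h.trans h'.symm⟩, h⟩
    rw [h5, card_product, sq]
    push_cast
    rfl
  have h6 : (((P ×ˢ P).filter fun q => c q.1 = c q.2).card : ℝ) ≤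
      (((P ×ˢ P).filter fun q => q.1 ≠ q.2 ∧ c q.1 = c q.2).card : ℝ) + P.card := by
    have h7 : ((P ×ˢ P).filter fun q => c q.1 = c q.2) ⊆
        ((P ×ˢ P).filter fun q => q.1 ≠ q.2 ∧ c q.1 = c q.2) ∪ P.image fun v => (v, v) := by
      rintro ⟨v, w⟩ hq
      simp only [mem_filter, mem_product] at hq
      simp only [mem_union, mem_filter, mem_product, mem_image, Prod.mk.injEq]
      by_cases hvw : v = w
      · right
        exact ⟨v, hq.1.1, rfl, hvw⟩
      · left
        exact ⟨hq.1, hvw, hq.2⟩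
    exact_mod_cast (card_le_card h7).trans ((card_union_le _ _).trans
      (Nat.add_le_add_left card_image_le _))
  rw [h3] at h2
  have h8 : (P.card : ℝ) ^ 2 / k ≤ (((P ×ˢ P).filter fun q => c q.1 = c q.2).card : ℝ) := by
    rw [div_le_iff₀ hk']
    linarith
  linarith

/-- multiplication by a real number -/
def mulBy (E : Type*) [AddCommGroup E] [Module ℝ E] (r : ℝ) : E →+ E :=
  DistribSMul.toAddMonoidHom E r

theorem mulBy_injective {E : Type*} [AddCommGroup E] [Module ℝ E] {r : ℝ} (hr : r ≠ 0) :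
    Function.Injective (mulBy E r) := smul_right_injective E hr

theorem bounded_of_ratios (k m : ℕ) : ∃ N : ℕ, ∀ (E : Type u) [AddCommGroup E] [Module ℝ E]
    (P : Finset E) (c : E → Fin k), IsBlocked P c → (ratios P).encard ≤ m → P.card ≤ N := by
  classical
  rcases Nat.eq_zero_or_pos k with hk | hk
  · subst hk
    refine ⟨0, ?_⟩
    intro E _ _ P c _ _
    rw [Nat.le_zero, card_eq_zero]
    by_contra hne
    obtain ⟨v, -⟩ := nonempty_iff_ne_empty.2 hne
    exact (c v).elim0
  have hk' : (0 : ℝ) < k := by exact_mod_cast hk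
  have hε : (0 : ℝ) < 1 / (2 * k * (m + 1)) := by positivity
  obtain ⟨N, hN⟩ := few_pairs.{u} k _ hε
  refine ⟨max N (2 * k), ?_⟩
  intro E _ _ P c hB hR
  by_contra hc
  rw [not_le, max_lt_iff] at hc
  obtain ⟨hc1, hc2⟩ := hc
  have hfin : (ratios P).Finite := Set.finite_of_encard_le_coe hR
  have hT : hfin.toFinset.card ≤ m := by
    rw [hfin.encard_eq_coe_toFinset_card] at hR
    exact_mod_cast hR
  have hsub : ((P ×ˢ P).filter fun q => q.1 ≠ q.2 ∧ c q.1 = c q.2) ⊆
      hfin.toFinset.biUnion fun r => (P ×ˢ P).filter fun q =>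
        mulBy E (1 - r) q.1 + mulBy E r q.2 + 0 ∈ P := by
    rintro ⟨v, w⟩ hq
    simp only [mem_filter, mem_product] at hq
    obtain ⟨⟨hv, hw⟩, hvw, hcol⟩ := hq
    obtain ⟨x, hx, a, b, ha, hb, hab, rfl⟩ := (hB v hv w hw hvw).1 hcol
    have ha' : a = 1 - b := by linarith
    subst ha'
    rw [mem_biUnion]
    refine ⟨b, ?_, ?_⟩
    · rw [Set.Finite.mem_toFinset]
      exact ⟨hb, by linarith, v, hv, w, hw, hvw, hx⟩
    · rw [mem_filter, mem_product, add_zero]
      exact ⟨⟨hv, hw⟩, hx⟩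
  have h1 : (((P ×ˢ P).filter fun q => q.1 ≠ q.2 ∧ c q.1 = c q.2).card : ℝ) ≤
      m * (1 / (2 * k * (m + 1)) * (P.card : ℝ) ^ 2) := by
    calc (((P ×ˢ P).filter fun q => q.1 ≠ q.2 ∧ c q.1 = c q.2).card : ℝ)
        ≤ ((hfin.toFinset.biUnion fun r => (P ×ˢ P).filter fun q =>
            mulBy E (1 - r) q.1 + mulBy E r q.2 + 0 ∈ P).card : ℝ) := by
          exact_mod_cast card_le_card hsub
      _ ≤ ∑ r ∈ hfin.toFinset, (((P ×ˢ P).filter fun q =>
            mulBy E (1 - r) q.1 + mulBy E r q.2 + 0 ∈ P).card : ℝ) := by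
          exact_mod_cast card_biUnion_le
      _ ≤ ∑ _r ∈ hfin.toFinset, 1 / (2 * k * (m + 1)) * (P.card : ℝ) ^ 2 := by
          refine sum_le_sum fun r hr => ?_
          rw [Set.Finite.mem_toFinset] at hr
          exact hN E P c hB hc1.le _ _ (mulBy_injective (by linarith [hr.2.1]))
            (mulBy_injective hr.1.ne') 0
      _ = (hfin.toFinset.card : ℝ) * (1 / (2 * k * (m + 1)) * (P.card : ℝ) ^ 2) := by
          rw [sum_const, nsmul_eq_mul]
      _ ≤ m * (1 / (2 * k * (m + 1)) * (P.card : ℝ) ^ 2) := by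
          gcongr
  have h2 := many_mono (P := P) (c := c) hk
  have h3 : (m : ℝ) * (1 / (2 * k * (m + 1)) * (P.card : ℝ) ^ 2) ≤
      (P.card : ℝ) ^ 2 / (2 * k) := by
    have h4 : (m : ℝ) / (m + 1) ≤ 1 := by
      rw [div_le_one (by positivity)]
      linarith
    calc (m : ℝ) * (1 / (2 * k * (m + 1)) * (P.card : ℝ) ^ 2)
        = (m : ℝ) / (m + 1) * ((P.card : ℝ) ^ 2 / (2 * k)) := by field_simp
      _ ≤ 1 * ((P.card : ℝ) ^ 2 / (2 * k)) := by gcongr
      _ = (P.card : ℝ) ^ 2 / (2 * k) := one_mul _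
  have h5 : (P.card : ℝ) ^ 2 / k = 2 * ((P.card : ℝ) ^ 2 / (2 * k)) := by field_simp
  have h6 : (P.card : ℝ) ^ 2 / (2 * k) ≤ P.card := by linarith
  have h7 : (2 * k : ℝ) < P.card := by exact_mod_cast hc2
  have hPpos : (0 : ℝ) < P.card := by linarith [hk']
  rw [div_le_iff₀ (by positivity)] at h6
  nlinarith

end Final

/-- For fixed `k`, large `k`-blocked sets have no additive structure; in particular the number of
the ratios in which points of a `k`-blocked set divide segments of the set bounds its size. -/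
theorem result (k : ℕ) :
    (∀ ε : ℝ, 0 < ε → ∃ N : ℕ, ∀ (E : Type u) [AddCommGroup E] [Module ℝ E] [DecidableEq E]
      (P : Finset E) (c : E → Fin k), IsBlocked P c → N ≤ P.card →
      (P.addEnergy P : ℝ) ≤ ε * (P.card : ℝ) ^ 3 ∧
      ∀ S T : E →+ E, Function.Injective S → Function.Injective T → ∀ z : E,
        (((P ×ˢ P).filter fun q => S q.1 + T q.2 + z ∈ P).card : ℝ) ≤
          ε * (P.card : ℝ) ^ 2) ∧
    (∀ m : ℕ, ∃ N : ℕ, ∀ (E : Type u) [AddCommGroup E] [Module ℝ E] (P : Finset E)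
      (c : E → Fin k), IsBlocked P c → (ratios P).encard ≤ m → P.card ≤ N) := by
  refine ⟨fun ε hε => ?_, fun m => bounded_of_ratios k m⟩
  obtain ⟨N1, h1⟩ := small_energy.{u} k ε hε
  obtain ⟨N2, h2⟩ := few_pairs.{u} k ε hε
  refine ⟨max N1 N2, ?_⟩
  intro E _ _ _ P c hB hN
  exact ⟨h1 E P c hB ((le_max_left _ _).trans hN), h2 E P c hB ((le_max_right _ _).trans hN)⟩

end Pool.Agent.Results.MP_70b73c_co.FewRatios
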