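import Mathlib
import Pool.Agent.BK5.Main

/-!
Every 5-blocked point set in the plane has at most 8585 points.

Idea of the proof.  (1) A colour class of a 5-blocked set contains no convex hexagon which is empty
of other points of the class: the other points in such a hexagon form a 4-blocked set, so there are
at most 12 of them, and this is refuted by certificates for at most 17 points (12 points are excluded
because the blockers of the edges would be six extreme points of a 4-blocked set of 12 points).
(2) A set in general position with a convex 9-gon has an empty convex hexagon (Gerken), proved here by
81 small certificates for the convex layers inside a minimal 9-gon.  (3) 1718 points in general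
position contain a convex 9-gon (Erdős–Szekeres, Tóth–Valtr).  So every class has at most 1717 points.
-/

set_option autoImplicit false

namespace Pool.Agent.Results.MP_70b73c_co.FiveBlocked

/-- If `P` is a finite set of points of the plane and `c` a colouring with five colours such that two
distinct points of `P` have the same colour exactly when some point of `P` lies strictly between
them, then `P` has at most 8585 points. -/
theorem result (P : Finset (ℝ × ℝ)) (c : ℝ × ℝ → Fin 5)
    (h : ∀ v ∈ P, ∀ w ∈ P, v ≠ w → (c v = c w ↔ ∃ x ∈ P, x ∈ openSegment ℝ v w)) :
    P.card ≤ 8585 :=
  Pool.BK5.main P c h

end Pool.Agent.Results.MP_70b73c_co.FiveBlocked
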