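import Mathlib
import Pool.Agent.PBL.Plane

/-!
Blocked generalised configurations (Goodman and Pollack: pseudolines instead of lines) of
superpolynomial size.

Every `k`-blocked point set of the plane gives a `k`-blocked generalised configuration with the same
number of points (its allowable sequence), but the maximal number of points of `k`-blocked generalised
configurations grows faster than every power of `k`.  So a bound `C k ^ 2` (or any polynomial bound)
for blocked point sets cannot be proved from the allowable sequence alone.

Idea of the construction: take two copies `A`, `C` of a configuration, the second one with permuted
colours, and between them a smaller configuration `B` with new colours.  The pairs of equally coloured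
points of `A` and `C` are covered by few antichains of the grid `A × C` (one for each point of `B`),
because a random permutation of the colours makes all common subsequences of two rainbow segments
short.
-/

set_option autoImplicit false

namespace Pool.Agent.Results.MP_70b73c_co.PseudoBlocked

open Pool.PBL

/-- The pseudoline version of the problem is a relaxation of the problem, and its answer is negative:
every `k`-blocked point set of the plane gives a `k`-blocked generalised configuration with the same
number of points, but for every exponent `A` there is `D` such that for every `k ≥ 1` there is a
`k`-blocked generalised configuration with at least `k ^ A / D` points. -/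
theorem result :
    (∀ (k : ℕ) (P : Finset (ℝ × ℝ)) (c : ℝ × ℝ → Fin k),
      (∀ v ∈ P, ∀ w ∈ P, v ≠ w → (c v = c w ↔ ∃ x ∈ P, x ∈ openSegment ℝ v w)) →
        GenBlocked k P.card) ∧
    (∀ A : ℕ, ∃ D : ℕ, ∀ k : ℕ, 0 < k → ∃ n : ℕ, k ^ A ≤ D * n ∧ GenBlocked k n) :=
  ⟨fun _ P c h => genBlocked_of_plane P c h, superpoly⟩

end Pool.Agent.Results.MP_70b73c_co.PseudoBlocked
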