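import Mathlib

/-!
Blocked point sets whose blockers divide the monochromatic segments in a constant ratio (in
particular midpoint-blocked sets): every colour class has at most `k` points, so the whole set has
at most `k ^ 2` points.
-/

set_option autoImplicit false

namespace Pool.Agent.Results.MP_70b73c_co.RatioBlocked

open Finset

/-- `P` is blocked by the colouring `c`: two distinct points of `P` have the same colour exactly
when some point of `P` lies strictly between them. -/
def IsBlocked {E : Type*} [AddCommGroup E] [Module ℝ E] {k : ℕ} (P : Finset E) (c : E → Fin k) :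
    Prop :=
  ∀ v ∈ P, ∀ w ∈ P, v ≠ w → (c v = c w ↔ ∃ x ∈ P, x ∈ openSegment ℝ v w)

/-- There are a ratio `r` strictly between `0` and `1` and a linear functional `l` such that, for
all distinct points `v`, `w` of `P` of the same colour with `l v ≤ l w`, the point
`(1 - r) v + r w` is in `P`.  For `r = 1 / 2` and `l = 0` this says that the midpoint of any two
distinct points of the same colour is in `P`. -/
def HasConstantRatio {E : Type*} [AddCommGroup E] [Module ℝ E] {k : ℕ} (P : Finset E)
    (c : E → Fin k) : Prop :=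
  ∃ r : ℝ, 0 < r ∧ r < 1 ∧ ∃ l : E →ₗ[ℝ] ℝ,
    ∀ v ∈ P, ∀ w ∈ P, v ≠ w → c v = c w → l v ≤ l w → (1 - r) • v + r • w ∈ P

variable {E : Type*} [AddCommGroup E] [Module ℝ E] {k : ℕ}

/-- a point strictly between two points, written with a parameter -/
lemma mem_open_param {v w x : E} :
    x ∈ openSegment ℝ v w ↔ ∃ t : ℝ, 0 < t ∧ t < 1 ∧ x = v + t • (w - v) := by
  constructor
  · rintro ⟨a, b, ha, hb, hab, rfl⟩
    refine ⟨b, hb, by linarith, ?_⟩
    have : a = 1 - b := by linarith
    subst this
    module
  · rintro ⟨t, h0, h1, rfl⟩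
    refine ⟨1 - t, t, by linarith, h0, by ring, ?_⟩
    module

/-- A blocker of a monochromatic pair has another colour. -/
lemma blocker_color {P : Finset E} {c : E → Fin k} (hB : IsBlocked P c)
    {v w y : E} (hv : v ∈ P) (hw : w ∈ P) (hne : v ≠ w) (hc : c v = c w) (hy : y ∈ P)
    (hyo : y ∈ openSegment ℝ v w) : c y ≠ c v := by
  have hd : w - v ≠ 0 := sub_ne_zero.mpr (Ne.symm hne)
  have hinj : Function.Injective (fun t : ℝ => v + t • (w - v)) := by
    intro s t hst
    have h1 : s • (w - v) = t • (w - v) := by simpa using hst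
    have h2 : (s - t) • (w - v) = 0 := by rw [sub_smul, h1, sub_self]
    rcases smul_eq_zero.mp h2 with h3 | h3
    · linarith
    · exact absurd h3 hd
  let T : Set ℝ := {t : ℝ | 0 < t ∧ t < 1 ∧ v + t • (w - v) ∈ P}
  have hTfin : T.Finite := by
    have : ((fun t : ℝ => v + t • (w - v)) ⁻¹' (P : Set E)).Finite :=
      P.finite_toSet.preimage hinj.injOn
    exact this.subset (fun t ht => ht.2.2)
  obtain ⟨u, hu0, hu1, hyu⟩ := mem_open_param.mp hyo
  have huT : u ∈ T := ⟨hu0, hu1, hyu ▸ hy⟩
  obtain ⟨t, htT, hmin⟩ := Set.exists_min_image T id hTfin ⟨_, huT⟩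
  simp only [id] at hmin
  obtain ⟨ht0, ht1, htP⟩ := htT
  set x : E := v + t • (w - v) with hx
  have hvx : v ≠ x := by
    intro hh
    have h2 : t • (w - v) = 0 := by
      have : v + 0 = v + t • (w - v) := by rw [add_zero]; exact hh
      exact (add_left_cancel this).symm
    rcases smul_eq_zero.mp h2 with h3 | h3
    · linarith
    · exact hd h3
  -- `v` and `x` see each other
  have hcx : c v ≠ c x := by
    intro hh
    obtain ⟨z, hzP, hz⟩ := (hB v hv x htP hvx).mp hh
    obtain ⟨s, hs0, hs1, rfl⟩ := mem_open_param.mp hz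
    have hmem : s * t ∈ T := by
      refine ⟨mul_pos hs0 ht0, by nlinarith, ?_⟩
      have : v + (s * t) • (w - v) = v + s • (x - v) := by
        rw [hx]; module
      rw [this]; exact hzP
    have := hmin _ hmem
    nlinarith
  -- compare `t` and `u`
  rcases lt_or_eq_of_le (hmin _ huT) with hlt | heq
  · exfalso
    have hxw : x ≠ w := by
      intro hh
      have h2 : (t - 1) • (w - v) = 0 := by
        have : (t - 1) • (w - v) = x - w := by rw [hx]; module
        rw [this, hh, sub_self]
      rcases smul_eq_zero.mp h2 with h3 | h3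
      · linarith
      · exact hd h3
    have hblk : c x = c w := by
      refine (hB x htP w hw hxw).mpr ⟨y, hy, ?_⟩
      refine mem_open_param.mpr ⟨(u - t) / (1 - t), ?_, ?_, ?_⟩
      · apply div_pos <;> linarith
      · rw [div_lt_one (by linarith)]; linarith
      · rw [hyu, hx]
        have h1t : (1 - t) ≠ 0 := by linarith
        have hwx : w - (v + t • (w - v)) = (1 - t) • (w - v) := by module
        rw [hwx, smul_smul, div_mul_cancel₀ _ h1t]
        module
    exact hcx (hc.trans hblk.symm)
  · have : y = x := by rw [hyu, hx, heq]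
    rw [this]
    exact fun hh => hcx hh.symm

lemma combo_mem_openSegment {r : ℝ} (h0 : 0 < r) (h1 : r < 1) (v w : E) :
    (1 - r) • v + r • w ∈ openSegment ℝ v w :=
  ⟨1 - r, r, by linarith, h0, by ring, rfl⟩

/-- Key step: if the blockers of `p₀ p` and `p₀ q` have the same colour, then `p = q`. -/
lemma key {P : Finset E} {c : E → Fin k} (hB : IsBlocked P c) {r : ℝ} (h0 : 0 < r) (h1 : r < 1)
    {l : E →ₗ[ℝ] ℝ}
    (hR : ∀ v ∈ P, ∀ w ∈ P, v ≠ w → c v = c w → l v ≤ l w → (1 - r) • v + r • w ∈ P)
    {p₀ p q : E} (hp₀ : p₀ ∈ P) (hp : p ∈ P) (hq : q ∈ P) (hpne : p₀ ≠ p) (hqne : p₀ ≠ q)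
    (hpc : c p₀ = c p) (hqc : c p₀ = c q) (hlp : l p₀ ≤ l p) (hlq : l p₀ ≤ l q)
    (hpq : l p ≤ l q)
    (hcol : c ((1 - r) • p₀ + r • p) = c ((1 - r) • p₀ + r • q)) : p = q := by
  by_contra hne
  have hy := hR p₀ hp₀ p hp hpne hpc hlp
  have hy' := hR p₀ hp₀ q hq hqne hqc hlq
  have hw := hR p hp q hq hne (hpc.symm.trans hqc) hpq
  have hwc := blocker_color hB hp hq hne (hpc.symm.trans hqc) hw
    (combo_mem_openSegment h0 h1 p q)
  have hyne : (1 - r) • p₀ + r • p ≠ (1 - r) • p₀ + r • q := by
    intro hh
    have h2 : r • p = r • q := add_left_cancel hh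
    have h3 : r • (p - q) = 0 := by rw [smul_sub, h2, sub_self]
    rcases smul_eq_zero.mp h3 with h4 | h4
    · linarith
    · exact hne (sub_eq_zero.mp h4)
  have hlyy : l ((1 - r) • p₀ + r • p) ≤ l ((1 - r) • p₀ + r • q) := by
    simp only [map_add, map_smul, smul_eq_mul]
    nlinarith
  have hz := hR _ hy _ hy' hyne hcol hlyy
  have hpw : p₀ ≠ (1 - r) • p + r • q := by
    intro hh
    rw [← hh] at hwc
    exact hwc hpc
  have hzz : (1 - r) • ((1 - r) • p₀ + r • p) + r • ((1 - r) • p₀ + r • q)
      = (1 - r) • p₀ + r • ((1 - r) • p + r • q) := by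
    module
  have hcc : c p₀ = c ((1 - r) • p + r • q) :=
    (hB p₀ hp₀ _ hw hpw).mpr ⟨_, hz, hzz ▸ combo_mem_openSegment h0 h1 _ _⟩
  exact hwc (hcc.symm.trans hpc)

/-- Every colour class has at most `k` points. -/
theorem class_card {P : Finset E} {c : E → Fin k} (hB : IsBlocked P c)
    (hR : HasConstantRatio P c) (i : Fin k) :
    (P.filter (fun p => c p = i)).card ≤ k := by
  classical
  obtain ⟨r, h0, h1, l, hR⟩ := hR
  rcases (P.filter (fun p => c p = i)).eq_empty_or_nonempty with he | hne
  · rw [he]; simp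
  · obtain ⟨p₀, hp₀, hmin⟩ := Finset.exists_min_image (P.filter (fun p => c p = i)) l hne
    have hp₀' := Finset.mem_filter.mp hp₀
    have hmaps : Set.MapsTo (fun p => c ((1 - r) • p₀ + r • p))
        (((P.filter (fun p => c p = i)).erase p₀ : Finset E) : Set E)
        ((Finset.univ.erase i : Finset (Fin k)) : Set (Fin k)) := by
      intro p hp
      have hp1 := Finset.mem_erase.mp (Finset.mem_coe.mp hp)
      have hp2 := Finset.mem_filter.mp hp1.2
      have hcc : c p₀ = c p := hp₀'.2.trans hp2.2.symm
      have hy := hR p₀ hp₀'.1 p hp2.1 (Ne.symm hp1.1) hcc (hmin p hp1.2)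
      have hcol := blocker_color hB hp₀'.1 hp2.1 (Ne.symm hp1.1) hcc hy
        (combo_mem_openSegment h0 h1 p₀ p)
      rw [Finset.mem_coe, Finset.mem_erase]
      refine ⟨?_, Finset.mem_univ _⟩
      rw [hp₀'.2] at hcol
      exact hcol
    have hinj : Set.InjOn (fun p => c ((1 - r) • p₀ + r • p))
        (((P.filter (fun p => c p = i)).erase p₀ : Finset E) : Set E) := by
      intro p hp q hq hpq
      have hp1 := Finset.mem_erase.mp (Finset.mem_coe.mp hp)
      have hp2 := Finset.mem_filter.mp hp1.2
      have hq1 := Finset.mem_erase.mp (Finset.mem_coe.mp hq)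
      have hq2 := Finset.mem_filter.mp hq1.2
      have hpc : c p₀ = c p := hp₀'.2.trans hp2.2.symm
      have hqc : c p₀ = c q := hp₀'.2.trans hq2.2.symm
      have hcol : c ((1 - r) • p₀ + r • p) = c ((1 - r) • p₀ + r • q) := hpq
      rcases le_total (l p) (l q) with hle | hle
      · exact key hB h0 h1 hR hp₀'.1 hp2.1 hq2.1 (Ne.symm hp1.1) (Ne.symm hq1.1) hpc hqc
          (hmin p hp1.2) (hmin q hq1.2) hle hcol
      · exact (key hB h0 h1 hR hp₀'.1 hq2.1 hp2.1 (Ne.symm hq1.1) (Ne.symm hp1.1) hqc hpc
          (hmin q hq1.2) (hmin p hp1.2) hle hcol.symm).symm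
    have hcard := Finset.card_le_card_of_injOn _ hmaps hinj
    rw [Finset.card_erase_of_mem hp₀, Finset.card_erase_of_mem (Finset.mem_univ i),
      Finset.card_univ, Fintype.card_fin] at hcard
    have hk : 0 < k := Fin.pos i
    omega

/-- **Blocked sets with blockers in a constant ratio have at most `k ^ 2` points.**  Let `P` be a
finite set of points of a real vector space (for example of the plane), coloured with `k` colours
so that two distinct points of `P` have the same colour exactly when some point of `P` lies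
strictly between them, and such that the blockers of the monochromatic pairs divide them in a
constant ratio (for example, such that all these blockers are midpoints).  Then every colour class
has at most `k` points, and `P` has at most `k ^ 2` points. -/
theorem result {E : Type*} [AddCommGroup E] [Module ℝ E] (k : ℕ) (P : Finset E)
    (c : E → Fin k) (hB : IsBlocked P c) (hR : HasConstantRatio P c) :
    (∀ i : Fin k, (P.filter (fun p => c p = i)).card ≤ k) ∧ P.card ≤ k ^ 2 := by
  classical
  refine ⟨class_card hB hR, ?_⟩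
  have h1 : P.card = ∑ i : Fin k, (P.filter (fun p => c p = i)).card :=
    Finset.card_eq_sum_card_fiberwise (f := c) (s := P) (t := Finset.univ)
      (fun x _ => Finset.mem_coe.mpr (Finset.mem_univ _))
  rw [h1]
  calc ∑ i : Fin k, (P.filter (fun p => c p = i)).card
      ≤ ∑ _i : Fin k, k := Finset.sum_le_sum (fun i _ => class_card hB hR i)
    _ = k ^ 2 := by simp [pow_two]

end Pool.Agent.Results.MP_70b73c_co.RatioBlocked
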